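import Mathlib
import Pool.Agent.Y796.RH.A

set_option autoImplicit false

/-!
# Relatively hyperbolic diagram groups: arbitrary peripheral subgroups, subgroups, free factors

Diagram groups (definitions in `H540DG`):

* `Pres A` is a semigroup presentation over the alphabet `A`: a set of relations `(u, v)` with
  `u`, `v` nonempty words.
* `OE P` are the oriented edges `(a, r, s, c)` of the Squier complex: they lead from `a u c` to
  `a v c` if `s = true`, and from `a v c` to `a u c` if `s = false`, where `r = (u, v)`.
* `IsPath w L w'`: the list `L` of oriented edges is an edge path from `w` to `w'`.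
* `Elem P`: elementary homotopies of edge paths, that is deletion of a backtrack, and replacing
  one half of the boundary of a square by the other half.
* `DiagramGroup P w`: closed edge paths at `w` modulo elementary homotopies, with concatenation
  (the fundamental group of the Squier complex at `w`).

Relative hyperbolicity (definitions in `Pool.Agent.H599R3.RH`), for subgroups `H i` of `G`:

* `FP H X` is the free product of the groups `H i` and of the free group on `X`, and `nat H X` is
  the natural homomorphism `FP H X → G`.
* `Letter H X`: letters, that is elements of `X`, inverses of elements of `X`, and elements of the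
  `H i`;  `wv l` is the value of the word `l` in `FP H X`.
* `AreaLE R x k`: `x` is a product of at most `k` conjugates of elements of `R` and their inverses.
* `IsHypRel H`: `G` is hyperbolic relative to the `H i` in the sense of Osin: there are finite
  sets `X` and `R` such that `nat H X` is onto with kernel the normal closure of `R`, and a
  constant `C` such that every word `l` representing `1` in `G` has relative area at most
  `C * (length of l)`.
-/

namespace Pool.Agent.Results.MP_e6550d_al.AllPeripherals

open H540DG Pool.Agent.H599R3.RH Pool.Agent.Y796.RH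

/-- `G` is hyperbolic relative to a nonempty finite collection of proper infinite subgroups. -/
def ProperlyRelHyp (G : Type) [Group G] : Prop :=
  ∃ (n : ℕ) (H : Fin n → Subgroup G), 0 < n ∧ (∀ i, H i ≠ ⊤) ∧ (∀ i, Infinite (H i)) ∧
    IsHypRel H

/-- `G` is a nontrivial free product. -/
def FreeProd (G : Type) [Group G] : Prop :=
  ∃ (B C : Type) (_ : Group B) (_ : Group C), Nontrivial B ∧ Nontrivial C ∧
    Nonempty (G ≃* Monoid.Coprod B C)

/-- If `G` is hyperbolic relative to a family `H` of proper subgroups (any index set, possibly empty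
or infinite; the subgroups may be trivial), then `G` is a nontrivial free product, or `G` is cyclic
and all the subgroups `H i` are trivial. -/
def Rigid (G : Type) [Group G] : Prop :=
  ∀ (ι : Type) (H : ι → Subgroup G), (∀ i, H i ≠ ⊤) → IsHypRel H →
    FreeProd G ∨ (IsCyclic G ∧ ∀ i, H i = ⊥)

/-- Every element of `D` which commutes with a nontrivial element of `K` has a nontrivial power
in `K`. -/
def PowerClosed {D : Type} [Group D] (K : Subgroup D) : Prop :=
  ∀ k ∈ K, k ≠ 1 → ∀ z : D, k * z = z * k → ∃ n : ℕ, n ≠ 0 ∧ z ^ n ∈ K

/-- The malnormal subgroups. -/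
def Malnormal {D : Type} [Group D] (K : Subgroup D) : Prop :=
  ∀ g : D, ∀ k ∈ K, k ≠ 1 → g⁻¹ * k * g ∈ K → g ∈ K

theorem tf_of_inj {A : Type} {P : Pres A} {w : List A} {G : Type} [Group G] {j : G →* Dg P w}
    (hj : Function.Injective j) (g : G) (hg : g ≠ 1) (n : ℕ) (hn : n ≠ 0) : g ^ n ≠ 1 := by
  intro h
  apply dg_tf (j g) ?_ n hn
  · rw [← map_pow, h, map_one]
  · intro h
    exact hg (hj (by rw [h, map_one]))

theorem rigid_of {A : Type} {P : Pres A} {w : List A} {G : Type} [Group G] (j : G →* Dg P w)
    (hj : Function.Injective j) (hpow : ∀ k : G, k ≠ 1 → ∀ z : Dg P w, j k * z = z * j k →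
      ∃ n : ℕ, n ≠ 0 ∧ ∃ y : G, j y = z ^ n) : Rigid G := by
  intro ι H hprop hH
  rcases Pool.Agent.Y796.RH.main w j hj hpow H hprop hH with h | ⟨t, ht⟩
  · exact Or.inl h
  · right
    refine ⟨⟨t, fun g => ?_⟩, fun i => ?_⟩
    · obtain ⟨n, hn⟩ := ht g
      exact ⟨n, hn⟩
    · rw [Subgroup.eq_bot_iff_forall]
      intro h hh
      by_contra h1
      apply hprop i
      rw [eq_top_iff]
      intro g _
      refine (malnormal hH i i g h hh (tf_of_inj hj h h1) ?_).2
      obtain ⟨m, rfl⟩ := ht g
      obtain ⟨n, rfl⟩ := ht h
      have : (t ^ m)⁻¹ * t ^ n * t ^ m = t ^ n := by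
        rw [← zpow_neg, ← zpow_add, ← zpow_add]; congr 1; ring
      rw [this]
      exact hh

theorem factor_of {A : Type} {P : Pres A} {w : List A} {G : Type} [Group G] (j : G →* Dg P w)
    (hj : Function.Injective j) (hpow : ∀ k : G, k ≠ 1 → ∀ z : Dg P w, j k * z = z * j k →
      ∃ n : ℕ, n ≠ 0 ∧ ∃ y : G, j y = z ^ n) {B C : Type} [Group B] [Group C]
    (f : G ≃* Monoid.Coprod B C) : Rigid B := by
  refine rigid_of (j.comp (fb f)) (hj.comp (fb_inj f)) ?_
  intro k hk z hz
  have hk1 : fb f k ≠ 1 := fun h => hk (fb_inj f (by rw [h, map_one]))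
  obtain ⟨n, hn, y, hy⟩ := hpow (fb f k) hk1 z hz
  have hc : fb f k * y = y * fb f k := by
    apply hj
    rw [map_mul, map_mul, hy]
    exact (Commute.pow_right (show Commute (j (fb f k)) z from hz) n)
  obtain ⟨x, hx⟩ := fb_malnormal f (tf_of_inj hj) hk hc
  exact ⟨n, hn, x, by rw [MonoidHom.comp_apply, hx, hy]⟩

/-- **Main theorem.** Let `D = D(P, w)` be a diagram group and `G` a subgroup of `D` such that every
element of `D` which commutes with a nontrivial element of `G` has a nontrivial power in `G`; for
instance `G` of finite index in `D`, or malnormal in `D`, or `G = D`.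

(1) If `G` is hyperbolic relative to a family of proper subgroups (an arbitrary family, possibly
infinite or empty, of possibly trivial subgroups), then `G` is a nontrivial free product, or `G` is
cyclic and all the subgroups of the family are trivial.

(2) `G` is properly relatively hyperbolic if and only if it is a nontrivial free product.

(3) The statement (1) holds for every free factor `B` of `G`. -/
theorem result {A : Type} (P : Pres A) (w : List A) (G : Subgroup (DiagramGroup P w))
    (hG : G.index ≠ 0 ∨ Malnormal G ∨ PowerClosed G) :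
    Rigid G ∧ (ProperlyRelHyp G ↔ FreeProd G) ∧
    ∀ (B C : Type) (_ : Group B) (_ : Group C), Nonempty (G ≃* Monoid.Coprod B C) → Rigid B := by
  have hG' : PowerClosed G := by
    rcases hG with h | h | h
    · intro k _ _ z _
      obtain ⟨n, hn, -, hn'⟩ := Subgroup.exists_pow_mem_of_index_ne_zero h z
      exact ⟨n, hn.ne', hn'⟩
    · intro k hk hk1 z hz
      refine ⟨1, one_ne_zero, ?_⟩
      rw [pow_one]
      apply h z k hk hk1
      rw [mul_assoc, hz, inv_mul_cancel_left]
      exact hk
    · exact h
  let e := dgEquiv P w
  let j : G →* Dg P w := e.toMonoidHom.comp G.subtype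
  have hj : Function.Injective j := e.injective.comp G.subtype_injective
  have hpow : ∀ k : G, k ≠ 1 → ∀ z : Dg P w, j k * z = z * j k →
      ∃ n : ℕ, n ≠ 0 ∧ ∃ y : G, j y = z ^ n := by
    intro k hk z hz
    obtain ⟨n, hn, hy⟩ := hG' k.1 k.2 (fun h => hk (Subtype.ext h)) (e.symm z) (by
      apply e.injective
      rw [map_mul, map_mul, e.apply_symm_apply]
      exact hz)
    refine ⟨n, hn, ⟨_, hy⟩, ?_⟩
    change e ((e.symm z) ^ n) = _
    rw [map_pow, e.apply_symm_apply]
  have h1 : Rigid G := rigid_of j hj hpow
  refine ⟨h1, ⟨?_, ?_⟩, ?_⟩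
  · rintro ⟨n, H, hn, hprop, hinf, hH⟩
    rcases h1 (Fin n) H hprop hH with h | ⟨-, h⟩
    · exact h
    · exfalso
      have h2 := hinf ⟨0, hn⟩
      rw [h ⟨0, hn⟩] at h2
      exact not_finite (⊥ : Subgroup G)
  · rintro ⟨B, C, iB, iC, hB, hC, ⟨f⟩⟩
    exact ⟨2, fH f, by norm_num, fH_proper f, fH_infinite f (tf_of_inj hj), free_hyp f⟩
  · rintro B C iB iC ⟨f⟩
    exact factor_of j hj hpow f

end Pool.Agent.Results.MP_e6550d_al.AllPeripherals
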